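import Pool.Agent.Lib.MP_04668c_co.E.Base

/-!
# MP_04668c_co, Theorem E: modules BLOCK, ARITH, SMALL
-/

set_option autoImplicit false
set_option linter.unusedSectionVars false

namespace Pool.Agent.Lib.MP_04668c_co.E.H5

open Finset Classical Module
open Pool.Agent.Lib.MP_04668c_co Pool.Agent.Lib.MP_04668c_co.E

theorem card_KZ_le {V X : Type} [Fintype V] [Fintype X] (B : X → Finset V)
    (hdeg : ∀ v, (univ.filter (fun x => v ∈ B x)).card ≤ 4) (Y : Finset V) :
    (KZ B Y).card ≤ 4 * Y.card := by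
  have hsub : KZ B Y ⊆ Y.biUnion fun v => univ.filter (fun x => v ∈ B x) := by
    intro x hx
    rw [KZ, Finset.mem_filter] at hx
    obtain ⟨-, v, hv, hvY⟩ := hx
    rw [Finset.mem_biUnion]
    exact ⟨v, hvY, by simpa using hv⟩
  refine (Finset.card_le_card hsub).trans (Finset.card_biUnion_le.trans ?_)
  calc ∑ v ∈ Y, (univ.filter (fun x => v ∈ B x)).card ≤ ∑ _v ∈ Y, 4 :=
        Finset.sum_le_sum fun v _ => hdeg v
    _ = 4 * Y.card := by rw [Finset.sum_const, smul_eq_mul, mul_comm]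

/-- BLOCK. -/
theorem block (h1 : YsplitStatement) (h2 : YcountStatement) (h3 : KdimStatement) :
    BlockStatement := by
  intro V X C _ _ _ G S B n₀ L b q ord c hn₀ hb hsys hord hind hq hYY Q hQ hQ2
  by_contra hcon
  push Not at hcon
  have hne : ∀ x, ∃ u ∈ B x, ∃ v ∈ B x, qc q c x u ≠ qc q c x v := by
    intro x
    obtain ⟨u, hu, v, hv, huv⟩ := Finset.one_lt_card.1 (by
      have := hsys.two x
      omega : 1 < (B x).card)
    exact ⟨u, hu, v, hv, hq (c x) x u v hu hv huv⟩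
  have hdim := h3 V X B (qc q c) hsys.two hne
  obtain ⟨Y, p, hconn, hKne, hYB, hp, hp0, hcard⟩ :=
    h1 V X G S B n₀ L b (qc q c) hn₀ hsys hdim Q hQ hQ2 (fun p hp u hu v hv => hcon p hp u hu v hv)
  have hcnt := h2 V X B b (qc q c) ord Y p hsys.two hsys.size hord hind hp hp0
  have hy := hYY Y p hconn hKne hYB hp hp0
  have hk := card_KZ_le B hsys.deg Y
  set D := (detSet B (qc q c) Y (ncs B p) ord).card with hD
  set F := finrank ℝ (kerZ B (qc q c) Y) + Rk B (KZ B Y) with hF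
  have e1 : 3 * n₀ * F ≤ 3 * n₀ * (2 * Y.card + 2 * b * D) := Nat.mul_le_mul_left _ hcnt
  have e2 : Y.card + 6 * n₀ * Y.card ≤ 3 * n₀ * (2 * Y.card + 2 * b * D) := hcard.trans e1
  have e3 : Y.card ≤ 6 * (n₀ * b * D) := by
    have : 3 * n₀ * (2 * Y.card + 2 * b * D) = 6 * n₀ * Y.card + 6 * (n₀ * b * D) := by ring
    omega
  have e4 : 2 * (12 * n₀ * b) * D = 24 * (n₀ * b * D) := by ring
  omega

/-- ARITH. -/
theorem arith : ArithStatement := by
  intro n₀ hn₀
  refine ⟨331776 * n₀ ^ 4 * (9216 * n₀ ^ 4) ^ 5 + 11520 * n₀ ^ 4 + 1, fun n hn M κ hM hκ => ?_⟩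
  set D := 9216 * n₀ ^ 4 with hD
  have hp : 1 ≤ n₀ ^ 4 := Nat.one_le_pow _ _ hn₀
  have hDpos : 0 < D := by omega
  refine ⟨n / D, ?_, ?_⟩
  · have h1 : D * (n / D) ≤ n := Nat.mul_div_le n D
    set m := n / D with hm
    have h2 : n ≤ 144 * n₀ ^ 3 * M + 96 * n₀ ^ 2 := by
      calc n ≤ n₀ * ((12 * n₀) ^ 2 * M + 96 * n₀) := hM
        _ = 144 * n₀ ^ 3 * M + 96 * n₀ ^ 2 := by ring
    have h3 : 576 * n₀ ^ 3 * κ ≤ n + 15552 * n₀ ^ 4 := by
      have : 9 * n₀ * (576 * n₀ ^ 3 * κ) ≤ 9 * n₀ * (n + 15552 * n₀ ^ 4) := by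
        calc 9 * n₀ * (576 * n₀ ^ 3 * κ) = 36 * n₀ ^ 2 * (12 * n₀) ^ 2 * κ := by ring
          _ ≤ 9 * n₀ * (n + 3 * (36 * n₀ ^ 2 * (12 * n₀) ^ 2)) := hκ
          _ = 9 * n₀ * (n + 15552 * n₀ ^ 4) := by ring
      exact Nat.le_of_mul_le_mul_left this (by omega)
    have h4 : 1152 * n₀ ^ 3 * (2 * (12 * n₀) * m + κ + 1) ≤ 1152 * n₀ ^ 3 * M := by
      have e1 : 1152 * n₀ ^ 3 * (2 * (12 * n₀) * m + κ + 1) =
          3 * (D * m) + 2 * (576 * n₀ ^ 3 * κ) + 1152 * n₀ ^ 3 := by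
        rw [hD]; ring
      have e2 : 1152 * n₀ ^ 3 * M = 8 * (144 * n₀ ^ 3 * M) := by ring
      have e3 : n₀ ^ 3 ≤ n₀ ^ 4 := Nat.pow_le_pow_right hn₀ (by norm_num)
      have e4 : n₀ ^ 2 ≤ n₀ ^ 4 := Nat.pow_le_pow_right hn₀ (by norm_num)
      rw [e1, e2]
      generalize n₀ ^ 4 * (9216 * n₀ ^ 4) ^ 5 = w at hn
      have e5 : 11520 * n₀ ^ 4 ≤ n := by omega
      generalize D * m = a1 at *
      generalize 576 * n₀ ^ 3 * κ = a2 at *
      generalize 144 * n₀ ^ 3 * M = a3 at *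
      generalize n₀ ^ 4 = a4 at *
      generalize n₀ ^ 3 = a5 at *
      generalize n₀ ^ 2 = a6 at *
      omega
    exact Nat.le_of_mul_le_mul_left h4 (by positivity)
  · have h1 : n < D * (n / D + 1) := Nat.lt_mul_div_succ n hDpos
    have h2 : n ^ 5 < D ^ 5 * (n / D + 1) ^ 5 := by
      rw [← mul_pow]
      exact Nat.pow_lt_pow_left h1 (by norm_num)
    have h3 : 331776 * n₀ ^ 4 * D ^ 5 ≤ n := by omega
    have h4 : D ^ 5 * (4 * (12 * n₀) ^ 2 * n ^ 2) ^ 2 ≤ n ^ 5 := by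
      calc D ^ 5 * (4 * (12 * n₀) ^ 2 * n ^ 2) ^ 2 = 331776 * n₀ ^ 4 * D ^ 5 * n ^ 4 := by ring
        _ ≤ n * n ^ 4 := Nat.mul_le_mul_right _ h3
        _ = n ^ 5 := by ring
    exact Nat.lt_of_mul_lt_mul_left (a := D ^ 5) (lt_of_le_of_lt h4 h2)

/-- SMALL: vertices on a parabola. -/
theorem small : SmallStatement := by
  intro V _ G
  let e := Fintype.equivFin V
  let g : V → ℝ := fun v => ((e v).val : ℝ)
  have hg : Function.Injective g := by
    intro u v h
    have h1 : ((e u).val : ℝ) = ((e v).val : ℝ) := h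
    exact e.injective (Fin.ext (by exact_mod_cast h1))
  refine ⟨fun v => (g v, g v ^ 2), ?_, ?_, ?_⟩
  · intro u v h
    exact hg (congrArg Prod.fst h)
  · intro u v w _ hwu hwv hmem
    have h1 : g w ≠ g u := fun h => hwu (hg h)
    have h2 : g w ≠ g v := fun h => hwv (hg h)
    obtain ⟨a, b, ha, hb, hab, h⟩ := hmem
    have e1 : a * g u + b * g v = g w := by
      have := congrArg Prod.fst h
      simpa using this
    have e2 : a * g u ^ 2 + b * g v ^ 2 = g w ^ 2 := by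
      have := congrArg Prod.snd h
      simpa using this
    have hb' : b = 1 - a := by linarith
    subst hb'
    -- a(1-a)(g u - g v)^2 = 0
    have e3 : a * (1 - a) * (g u - g v) ^ 2 = 0 := by
      have : a * (1 - a) * (g u - g v) ^ 2 =
          (a * g u ^ 2 + (1 - a) * g v ^ 2) - (a * g u + (1 - a) * g v) ^ 2 := by ring
      rw [this, e1, e2]; ring
    rcases mul_eq_zero.1 e3 with h5 | h5
    · rcases mul_eq_zero.1 h5 with h6 | h6
      · apply h2
        rw [← e1, h6]; ring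
      · apply h1
        have : a = 1 := by linarith
        rw [← e1, this]; ring
    · have h6 : g u = g v := by
        have := pow_eq_zero_iff (two_ne_zero) |>.1 h5
        linarith
      apply h2
      rw [← e1, h6]; ring
  · refine ⟨(univ : Finset (V × V)).image fun p => ((g p.2, g p.2 ^ 2) - (g p.1, g p.1 ^ 2) : ℝ × ℝ),
      ?_, ?_⟩
    · refine Finset.card_image_le.trans ?_
      rw [Finset.card_univ, Fintype.card_prod]
      exact le_of_eq (by ring)
    · intro u v _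
      refine ⟨((g v, g v ^ 2) - (g u, g u ^ 2) : ℝ × ℝ), ?_, 1, ?_⟩
      · rw [Finset.mem_image]
        exact ⟨(u, v), Finset.mem_univ _, rfl⟩
      · rw [one_smul]

end Pool.Agent.Lib.MP_04668c_co.E.H5
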